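import Mathlib

set_option autoImplicit false

namespace Pool.Agent.H5.LD

open Subgroup
open scoped commutatorElement

section ext

variable {E G : Type*} [Group E] [Group G]

/-- central extension -/
structure CExt (q : E →* G) : Prop where
  surj : Function.Surjective q
  ker : ∀ z : E, q z = 1 → z ∈ center E

/-- a section -/
noncomputable def sec (q : E →* G) (g : G) : E := Function.invFun q g

lemma CExt.sec_eq {q : E →* G} (h : CExt q) (g : G) : q (sec q g) = g :=
  Function.invFun_eq (h.surj g)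

/-- commutator of lifts -/
noncomputable def cc (q : E →* G) (g k : G) : E := ⁅sec q g, sec q k⁆

lemma comm_central_left {z A B : E} (hz : z ∈ center E) : ⁅A * z, B⁆ = ⁅A, B⁆ := by
  rw [mem_center_iff] at hz
  have h1 : z * B = B * z := (hz B).symm
  rw [commutatorElement_def, commutatorElement_def]
  calc A * z * B * (A * z)⁻¹ * B⁻¹ = A * (z * B) * z⁻¹ * A⁻¹ * B⁻¹ := by group
    _ = A * B * A⁻¹ * B⁻¹ := by rw [h1]; group

lemma comm_central_right {z A B : E} (hz : z ∈ center E) : ⁅A, B * z⁆ = ⁅A, B⁆ := by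
  rw [← commutatorElement_inv, comm_central_left hz, commutatorElement_inv]

variable {q : E →* G}

lemma CExt.exists_mul (h : CExt q) {A B : E} (hAB : q A = q B) :
    ∃ z ∈ center E, A = B * z := by
  refine ⟨B⁻¹ * A, h.ker _ ?_, by group⟩
  rw [map_mul, map_inv, hAB]; group

lemma CExt.cc_eq (h : CExt q) {A B : E} {g k : G} (hA : q A = g) (hB : q B = k) :
    cc q g k = ⁅A, B⁆ := by
  obtain ⟨z, hz, e1⟩ := h.exists_mul (A := sec q g) (B := A) (by rw [h.sec_eq, hA])
  obtain ⟨w, hw, e2⟩ := h.exists_mul (A := sec q k) (B := B) (by rw [h.sec_eq, hB])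
  unfold cc
  rw [e1, e2, comm_central_left hz, comm_central_right hw]

lemma CExt.cc_center (h : CExt q) {g k : G} (hgk : Commute g k) : cc q g k ∈ center E := by
  apply h.ker
  unfold cc
  rw [map_commutatorElement, h.sec_eq, h.sec_eq, commutatorElement_eq_one_iff_mul_comm]
  exact hgk

lemma CExt.cc_swap (_h : CExt q) (g k : G) : cc q k g = (cc q g k)⁻¹ := by
  unfold cc
  rw [commutatorElement_inv]

lemma CExt.cc_mul_right (h : CExt q) {g k k' : G} (_hk : Commute g k) (hk' : Commute g k') :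
    cc q g (k * k') = cc q g k * cc q g k' := by
  have h1 := h.cc_center hk'
  rw [mem_center_iff] at h1
  have h2 := h1 (sec q k)
  rw [h.cc_eq (A := sec q g) (B := sec q k * sec q k') (h.sec_eq g)
    (by rw [map_mul, h.sec_eq, h.sec_eq])]
  unfold cc at h2 ⊢
  rw [commutatorElement_def] at h2
  rw [commutatorElement_def, commutatorElement_def, commutatorElement_def]
  set a := sec q g
  set b := sec q k
  set c := sec q k'
  calc a * (b * c) * a⁻¹ * (b * c)⁻¹ = a * b * a⁻¹ * (a * c * a⁻¹ * c⁻¹) * b⁻¹ := by group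
    _ = a * b * a⁻¹ * b⁻¹ * (b * (a * c * a⁻¹ * c⁻¹)) * b⁻¹ := by group
    _ = a * b * a⁻¹ * b⁻¹ * (a * c * a⁻¹ * c⁻¹) := by rw [h2]; group

lemma CExt.cc_mul_left (h : CExt q) {g g' k : G} (hg : Commute g k) (hg' : Commute g' k) :
    cc q (g * g') k = cc q g k * cc q g' k := by
  have h1 := h.cc_center hg'
  rw [mem_center_iff] at h1
  rw [h.cc_swap k (g * g'), h.cc_mul_right hg.symm hg'.symm, h.cc_swap g k, h.cc_swap g' k,
    mul_inv_rev, inv_inv, inv_inv]
  exact (h1 _).symm

lemma CExt.cc_one_right (h : CExt q) (g : G) : cc q g 1 = 1 := by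
  rw [h.cc_eq (h.sec_eq g) (map_one q), commutatorElement_def]; group

lemma CExt.cc_inv_right (h : CExt q) {g k : G} (hk : Commute g k) :
    cc q g k⁻¹ = (cc q g k)⁻¹ := by
  have h1 := h.cc_mul_right hk.inv_right hk
  rw [inv_mul_cancel, h.cc_one_right] at h1
  exact eq_inv_of_mul_eq_one_left h1.symm

lemma CExt.cc_inv_left (h : CExt q) {g k : G} (hk : Commute g k) :
    cc q g⁻¹ k = (cc q g k)⁻¹ := by
  rw [h.cc_swap k g⁻¹, h.cc_inv_right hk.symm, h.cc_swap g k, inv_inv]

lemma CExt.cc_conj (h : CExt q) {g k : G} (hk : Commute g k) (m : G) :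
    cc q (m * g * m⁻¹) (m * k * m⁻¹) = cc q g k := by
  have h1 := h.cc_center hk
  rw [mem_center_iff] at h1
  have h2 := h1 (sec q m)
  rw [h.cc_eq (A := sec q m * sec q g * (sec q m)⁻¹) (B := sec q m * sec q k * (sec q m)⁻¹)
    (by rw [map_mul, map_mul, map_inv, h.sec_eq, h.sec_eq])
    (by rw [map_mul, map_mul, map_inv, h.sec_eq, h.sec_eq])]
  unfold cc at h2 ⊢
  rw [commutatorElement_def] at h2
  rw [commutatorElement_def, commutatorElement_def]
  set a := sec q g
  set b := sec q k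
  set c := sec q m
  calc c * a * c⁻¹ * (c * b * c⁻¹) * (c * a * c⁻¹)⁻¹ * (c * b * c⁻¹)⁻¹
      = c * (a * b * a⁻¹ * b⁻¹) * c⁻¹ := by group
    _ = a * b * a⁻¹ * b⁻¹ := by rw [h2]; group

/-- commutators of elements commuting with `g` are exact -/
lemma CExt.cc_comm (h : CExt q) {g k k' : G} (hk : Commute g k) (hk' : Commute g k') :
    cc q g (k⁻¹ * k'⁻¹ * k * k')⁻¹ = 1 := by
  have h1 := h.cc_center hk
  have h2 := h.cc_center hk'
  rw [mem_center_iff] at h1 h2
  rw [h.cc_inv_right (((hk.inv_right.mul_right hk'.inv_right).mul_right hk).mul_right hk'),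
    h.cc_mul_right ((hk.inv_right.mul_right hk'.inv_right).mul_right hk) hk',
    h.cc_mul_right (hk.inv_right.mul_right hk'.inv_right) hk,
    h.cc_mul_right hk.inv_right hk'.inv_right, h.cc_inv_right hk, h.cc_inv_right hk']
  have h3 : (cc q g k')⁻¹ * cc q g k = cc q g k * (cc q g k')⁻¹ := h1 _
  rw [inv_eq_one, mul_assoc (cc q g k)⁻¹, h3]
  group

lemma CExt.cc_sq_left (h : CExt q) {g k : G} (hk : Commute g k) :
    cc q (g ^ 2) k = (cc q g k) ^ 2 := by
  rw [pow_two, pow_two, h.cc_mul_left hk hk]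

lemma CExt.cc_sq_right (h : CExt q) {g k : G} (hk : Commute g k) :
    cc q g (k ^ 2) = (cc q g k) ^ 2 := by
  rw [pow_two, pow_two, h.cc_mul_right hk hk]

lemma CExt.exact (h : CExt q) {g k : G} (hc : cc q g k = 1) {A B : E} (hA : q A = g)
    (hB : q B = k) : A * B = B * A := by
  rw [h.cc_eq hA hB, commutatorElement_eq_one_iff_mul_comm] at hc
  exact hc

lemma CExt.exact_sec (h : CExt q) {g k : G} (hc : cc q g k = 1) :
    sec q g * sec q k = sec q k * sec q g := h.exact hc (h.sec_eq g) (h.sec_eq k)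

end ext

end Pool.Agent.H5.LD
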