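import Pool.Agent.H5.LD.Trv

set_option autoImplicit false

namespace Pool.Agent.H5.LD

open Subgroup Pool.Agent.H5CS

lemma CExt.cc_self {E G : Type*} [Group E] [Group G] {q : E →* G} (_h : CExt q) (g : G) :
    cc q g g = 1 := by
  unfold cc
  rw [commutatorElement_self]

/-- a chain of length `N` of exactly commuting elements of `E` -/
def HasChain {E G : Type*} [Group E] [Group G] (q : E →* G) (N : ℕ) : Prop :=
  ∃ (ι : Type) (_ : Fintype ι) (_ : LinearOrder ι) (_ : Nonempty ι) (a b : ι → E),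
    Fintype.card ι = N ∧ (∀ i j, b i * b j = b j * b i) ∧
    (∀ i j, j < i → a i * b j = b j * a i) ∧ ∀ i, ¬ Commute (q (a i)) (q (b i))

lemma hasChain_of {E G : Type*} [Group E] [Group G] {q : E →* G} (hq : CExt q)
    {ι : Type} [Fintype ι] [LinearOrder ι] [Nonempty ι] (a b : ι → G)
    (hb : ∀ i j, j < i → cc q (b i) (b j) = 1) (hab : ∀ i j, j < i → cc q (a i) (b j) = 1)
    (hne : ∀ i, ¬ Commute (a i) (b i)) : HasChain q (Fintype.card ι) := by
  refine ⟨ι, inferInstance, inferInstance, inferInstance, fun i => sec q (a i),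
    fun i => sec q (b i), rfl, ?_, ?_, ?_⟩
  · intro i j
    rcases lt_trichotomy i j with h | h | h
    · exact (hq.exact_sec (hb j i h)).symm
    · rw [h]
    · exact hq.exact_sec (hb i j h)
  · intro i j h
    exact hq.exact_sec (hab i j h)
  · intro i
    rw [hq.sec_eq, hq.sec_eq]
    exact hne i

section facts

variable {n : ℕ} {G : Type*} [Group G] {x : Fin n → G} {E : Type*} [Group E] {q : E →* G}

lemma exists_third (hn : 3 ≤ n) (i j : Fin n) : ∃ k : Fin n, k ≠ i ∧ k ≠ j := by
  have : ∃ k : Fin n, k ∉ ({i, j} : Finset (Fin n)) := by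
    by_contra hcon
    push Not at hcon
    have h1 : (Finset.univ : Finset (Fin n)) ⊆ {i, j} := fun k _ => hcon k
    have h2 := Finset.card_le_card h1
    have h3 : ({i, j} : Finset (Fin n)).card ≤ 2 := Finset.card_le_two
    rw [Finset.card_univ, Fintype.card_fin] at h2
    omega
  obtain ⟨k, hk⟩ := this
  simp only [Finset.mem_insert, Finset.mem_singleton, not_or] at hk
  exact ⟨k, hk.1, hk.2⟩

lemma exists_fourth (hn : 4 ≤ n) (i j l : Fin n) : ∃ k : Fin n, k ≠ i ∧ k ≠ j ∧ k ≠ l := by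
  have : ∃ k : Fin n, k ∉ ({i, j, l} : Finset (Fin n)) := by
    by_contra hcon
    push Not at hcon
    have h1 : (Finset.univ : Finset (Fin n)) ⊆ {i, j, l} := fun k _ => hcon k
    have h2 := Finset.card_le_card h1
    have h3 : ({i, j, l} : Finset (Fin n)).card ≤ 3 := Finset.card_le_three
    rw [Finset.card_univ, Fintype.card_fin] at h2
    omega
  obtain ⟨k, hk⟩ := this
  simp only [Finset.mem_insert, Finset.mem_singleton, not_or] at hk
  exact ⟨k, hk.1, hk.2.1, hk.2.2⟩

lemma Trv.c_x0 [IsSimpleGroup G] (T : Trv x) (hq : CExt q) (hx : Homog x) (hn : 3 ≤ n)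
    (e : Bool) {k o : Fin n} (hko : k ≠ o) : cc q (x o) (T.t e k o) = 1 := by
  obtain ⟨i, hi1, hi2⟩ := exists_third hn k o
  exact T.cc_one hq hx (by omega) e hi1.symm hko hi2 (T.commute_x e hi1.symm hko.symm).symm
    (T.commute_x true hi2 hi2.symm).symm

lemma Trv.c_rl [IsSimpleGroup G] (T : Trv x) (hq : CExt q) (hx : Homog x) (hn : 3 ≤ n)
    {k o : Fin n} (hko : k ≠ o) : cc q (T.r k o) (T.l k o) = 1 := by
  obtain ⟨i, hi1, hi2⟩ := exists_third hn k o
  exact T.cc_one hq hx (by omega) false hi1.symm hko hi2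
    (T.commute_rl hx (by omega) hko hi1.symm)
    (T.commute_t hx (by omega) true true hko hi2 hi1.symm hi2.symm hko.symm)

lemma Trv.c_conj_l [IsSimpleGroup G] (T : Trv x) (hq : CExt q) (hx : Homog x) (hn : 3 ≤ n)
    {j o : Fin n} (hjo : j ≠ o) : cc q ((x j)⁻¹ * x o * x j) (T.l j o) = 1 := by
  have h1 := T.commute_l_conj hjo
  rw [← hq.cc_conj h1.symm (x j)]
  have e1 : x j * ((x j)⁻¹ * x o * x j) * (x j)⁻¹ = x o := by group
  have e2 : x j * T.l j o * (x j)⁻¹ = x o * T.l j o := by
    have h2 := T.lmul hjo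
    rw [MulAut.conj_apply] at h2
    have h3 : T.l j o * x j = (x o)⁻¹ * x j * T.l j o := by
      rw [← h2]; group
    calc x j * T.l j o * (x j)⁻¹ = x o * ((x o)⁻¹ * x j * T.l j o) * (x j)⁻¹ := by group
      _ = x o * (T.l j o * x j) * (x j)⁻¹ := by rw [h3]
      _ = x o * T.l j o := by group
  have h4 : Commute (x o) (T.l j o) := (T.commute_x false hjo hjo.symm).symm
  rw [e1, e2, hq.cc_mul_right (Commute.refl _) h4, hq.cc_self]
  have h5 := T.c_x0 hq hx hn false hjo
  change cc q (x o) (T.l j o) = 1 at h5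
  rw [h5, one_mul]

lemma Trv.c_tt [IsSimpleGroup G] (T : Trv x) (hq : CExt q) (hx : Homog x) (hn : 4 ≤ n)
    (e e' : Bool) {j k o : Fin n} (hjk : j ≠ k) (hjo : j ≠ o) (hko : k ≠ o) :
    cc q (T.t e j o) (T.t e' k o) = 1 := by
  obtain ⟨i, hi1, hi2, hi3⟩ := exists_fourth hn j k o
  exact T.cc_one hq hx (by omega) e' hi2.symm hko hi3
    (T.commute_t hx (by omega) e e' hjo hi2.symm hjk hko.symm hi1)
    (T.commute_t hx (by omega) e true hjo hi3 hi1.symm hi3.symm hjo.symm)

lemma Trv.c_x [IsSimpleGroup G] (T : Trv x) (hq : CExt q) (hx : Homog x) (hn : 4 ≤ n)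
    (e : Bool) {j k o : Fin n} (hjk : j ≠ k) (hko : k ≠ o) :
    cc q (x j) (T.t e k o) = 1 := by
  obtain ⟨i, hi1, hi2, hi3⟩ := exists_fourth hn j k o
  exact T.cc_one hq hx (by omega) e hi2.symm hko hi3 (T.commute_x e hi2.symm hjk).symm
    (T.commute_x true hi3 hi1.symm).symm

lemma Trv.c_conj [IsSimpleGroup G] (T : Trv x) (hq : CExt q) (hx : Homog x) (hn : 4 ≤ n)
    (e : Bool) {j k o : Fin n} (hjk : j ≠ k) (hko : k ≠ o) :
    cc q ((x j)⁻¹ * x o * x j) (T.t e k o) = 1 := by
  obtain ⟨i, hi1, hi2, hi3⟩ := exists_fourth hn j k o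
  have hj : Commute (x j) (T.t e k i) := (T.commute_x e hi2.symm hjk).symm
  have ho : Commute (x o) (T.t e k i) := (T.commute_x e hi2.symm hko.symm).symm
  have hj' : Commute (x j) (T.r i o) := (T.commute_x true hi3 hi1.symm).symm
  have ho' : Commute (x o) (T.r i o) := (T.commute_x true hi3 hi3.symm).symm
  exact T.cc_one hq hx (by omega) e hi2.symm hko hi3
    ((hj.inv_left.mul_left ho).mul_left hj) ((hj'.inv_left.mul_left ho').mul_left hj')

end facts

/-- the chain for `n ≥ 4` -/
theorem chain_four {m : ℕ} {G : Type*} [Group G] [Finite G] [IsSimpleGroup G]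
    {x : Fin (m + 1) → G} {E : Type*} [Group E] {q : E →* G} (hq : CExt q) (hx : Homog x)
    (T : Trv x) (hm : 3 ≤ m) : HasChain q (2 * m) := by
  have : Nonempty (Lex (Fin m × Bool)) := ⟨toLex (⟨0, by omega⟩, true)⟩
  have hcard : Fintype.card (Lex (Fin m × Bool)) = 2 * m := by
    rw [Fintype.card_lex, Fintype.card_prod, Fintype.card_fin, Fintype.card_bool, mul_comm]
  rw [← hcard]
  let b : Lex (Fin m × Bool) → G := fun p => T.t (ofLex p).2 (ofLex p).1.succ 0
  let a : Lex (Fin m × Bool) → G := fun p =>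
    if (ofLex p).2 then (x (ofLex p).1.succ)⁻¹ * x 0 * x (ofLex p).1.succ
    else x (ofLex p).1.succ
  have hs : ∀ j : Fin m, j.succ ≠ 0 := fun j => Fin.succ_ne_zero j
  have hne' : ∀ j k : Fin m, k < j → j.succ ≠ k.succ := by
    intro j k h h1
    exact absurd (Fin.succ_injective _ h1) (ne_of_gt h)
  refine hasChain_of hq a b ?_ ?_ ?_
  · intro p p' h
    obtain ⟨⟨j, e⟩, rfl⟩ := toLex.surjective p
    obtain ⟨⟨k, e'⟩, rfl⟩ := toLex.surjective p'
    rw [Prod.Lex.toLex_lt_toLex] at h
    change cc q (T.t e j.succ 0) (T.t e' k.succ 0) = 1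
    rcases h with h | ⟨h1, h2⟩
    · exact T.c_tt hq hx (by omega) e e' (hne' j k h) (hs j) (hs k)
    · change k = j at h1
      change e' < e at h2
      subst h1
      cases e' <;> cases e
      · exact absurd h2 (lt_irrefl _)
      · exact T.c_rl hq hx (by omega) (hs k)
      · exact absurd h2 (by decide)
      · exact absurd h2 (lt_irrefl _)
  · intro p p' h
    obtain ⟨⟨j, e⟩, rfl⟩ := toLex.surjective p
    obtain ⟨⟨k, e'⟩, rfl⟩ := toLex.surjective p'
    rw [Prod.Lex.toLex_lt_toLex] at h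
    change cc q (if e then (x j.succ)⁻¹ * x 0 * x j.succ else x j.succ)
      (T.t e' k.succ 0) = 1
    rcases h with h | ⟨h1, h2⟩
    · cases e
      · exact T.c_x hq hx (by omega) e' (hne' j k h) (hs k)
      · exact T.c_conj hq hx (by omega) e' (hne' j k h) (hs k)
    · change k = j at h1
      change e' < e at h2
      subst h1
      cases e' <;> cases e
      · exact absurd h2 (lt_irrefl _)
      · exact T.c_conj_l hq hx (by omega) (hs k)
      · exact absurd h2 (by decide)
      · exact absurd h2 (lt_irrefl _)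
  · intro p
    obtain ⟨⟨j, e⟩, rfl⟩ := toLex.surjective p
    change ¬ Commute (if e then (x j.succ)⁻¹ * x 0 * x j.succ else x j.succ)
      (T.t e j.succ 0)
    cases e
    · intro h
      exact T.not_commute_l hx (hs j) h.symm
    · intro h
      exact T.not_commute_r_conj hx (by omega) (hs j) h.symm

end Pool.Agent.H5.LD
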