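import Pool.Agent.H5CS.Free

set_option autoImplicit false

namespace Pool.Agent.H5.LD

open Subgroup Pool.Agent.H5CS

section levi

variable {G : Type*} [Group G] {ι : Type*}

/-- every pair and every pair made of a letter and a product of two letters is `2`-Engel -/
structure Eng (x : ι → G) : Prop where
  h1 : ∀ a b, a ≠ b → Commute (x a) ((x b)⁻¹ * x a * x b)
  h2 : ∀ a b c, a ≠ b → a ≠ c → b ≠ c → Commute (x a) ((x b * x c)⁻¹ * x a * (x b * x c))
  h3 : ∀ a b c, a ≠ b → a ≠ c → b ≠ c → Commute (x b * x c) ((x a)⁻¹ * (x b * x c) * x a)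

/-- the commutator of two letters -/
def tt (x : ι → G) (a b : ι) : G := (x a)⁻¹ * (x b)⁻¹ * x a * x b

lemma tt_swap (x : ι → G) (a b : ι) : tt x b a = (tt x a b)⁻¹ := by
  unfold tt; group

/-- triple commutator -/
def ta (x : ι → G) (a b c : ι) : G := (tt x a b)⁻¹ * ((x c)⁻¹ * tt x a b * x c)

variable {x : ι → G}

lemma Eng.c1 (h : Eng x) {a b : ι} (hab : a ≠ b) : Commute (x a) (tt x a b) := by
  have h1 : tt x a b = (x a)⁻¹ * ((x b)⁻¹ * x a * x b) := by unfold tt; group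
  rw [h1]
  exact ((Commute.refl (x a)).inv_right).mul_right (h.h1 a b hab)

lemma Eng.c2 (h : Eng x) {a b : ι} (hab : a ≠ b) : Commute (x b) (tt x a b) := by
  rw [← inv_inv (tt x a b), ← tt_swap]
  exact (h.c1 hab.symm).inv_right

lemma Eng.c3 (h : Eng x) {a b c : ι} (hab : a ≠ b) (hac : a ≠ c) (hbc : b ≠ c) :
    Commute (x a) ((x c)⁻¹ * tt x a b * x c) := by
  have h1 : (x c)⁻¹ * tt x a b * x c =
      ((x c)⁻¹ * x a * x c)⁻¹ * ((x b * x c)⁻¹ * x a * (x b * x c)) := by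
    unfold tt; group
  rw [h1]
  exact ((h.h1 a c hac).inv_right).mul_right (h.h2 a b c hab hac hbc)

lemma Eng.c4 (h : Eng x) {a b c : ι} (hab : a ≠ b) (hac : a ≠ c) (hbc : b ≠ c) :
    Commute (x b) ((x c)⁻¹ * tt x a b * x c) := by
  have h1 : (x c)⁻¹ * tt x a b * x c = ((x c)⁻¹ * tt x b a * x c)⁻¹ := by
    rw [tt_swap x a b]; group
  rw [h1]
  exact (h.c3 hab.symm hbc hac).inv_right

lemma Eng.c5a (h : Eng x) {a b c : ι} (hab : a ≠ b) (hac : a ≠ c) (hbc : b ≠ c) :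
    Commute (x a) (ta x a b c) :=
  ((h.c1 hab).inv_right).mul_right (h.c3 hab hac hbc)

lemma Eng.c5b (h : Eng x) {a b c : ι} (hab : a ≠ b) (hac : a ≠ c) (hbc : b ≠ c) :
    Commute (x b) (ta x a b c) :=
  ((h.c2 hab).inv_right).mul_right (h.c4 hab hac hbc)

lemma Eng.c5t (h : Eng x) {a b c : ι} (hab : a ≠ b) (hac : a ≠ c) (hbc : b ≠ c) :
    Commute (tt x a b) (ta x a b c) := by
  have ha := h.c5a hab hac hbc
  have hb := h.c5b hab hac hbc
  exact ((ha.inv_left.mul_left hb.inv_left).mul_left ha).mul_left hb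

lemma Eng.c6 (h : Eng x) {a b c : ι} (hab : a ≠ b) (hac : a ≠ c) (hbc : b ≠ c) :
    ((x b)⁻¹ * tt x a c * x b) * ((x c)⁻¹ * tt x a b * x c) = tt x a c * tt x a b := by
  have h0 := h.h3 a b c hab hac hbc
  have h1 : Commute (x b * x c) (((x a)⁻¹ * (x b * x c) * x a)⁻¹ * (x b * x c)) :=
    h0.inv_right.mul_right (Commute.refl _)
  have h2 : ((x a)⁻¹ * (x b * x c) * x a)⁻¹ * (x b * x c) =
      tt x a c * ((x c)⁻¹ * tt x a b * x c) := by
    unfold tt; group
  rw [h2] at h1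
  set T := (x c)⁻¹ * tt x a b * x c with hT
  have h3 : x c * (tt x a c * T) * (x c)⁻¹ = (x b)⁻¹ * (tt x a c * T) * x b := by
    have h4 : x b * x c * (tt x a c * T) = tt x a c * T * (x b * x c) := h1
    calc x c * (tt x a c * T) * (x c)⁻¹
        = (x b)⁻¹ * (x b * x c * (tt x a c * T)) * (x c)⁻¹ := by group
      _ = (x b)⁻¹ * (tt x a c * T * (x b * x c)) * (x c)⁻¹ := by rw [h4]
      _ = (x b)⁻¹ * (tt x a c * T) * x b := by group
  have h5 : x c * (tt x a c * T) * (x c)⁻¹ = tt x a c * tt x a b := by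
    have h6 : x c * tt x a c = tt x a c * x c := h.c2 hac
    calc x c * (tt x a c * T) * (x c)⁻¹ = x c * tt x a c * (x c)⁻¹ * tt x a b := by
          rw [hT]; group
      _ = tt x a c * tt x a b := by rw [h6]; group
  have h7 : (x b)⁻¹ * (tt x a c * T) * x b = (x b)⁻¹ * tt x a c * x b * T := by
    have h8 : x b * T = T * x b := h.c4 hab hac hbc
    calc (x b)⁻¹ * (tt x a c * T) * x b = (x b)⁻¹ * tt x a c * (T * x b) := by group
      _ = (x b)⁻¹ * tt x a c * x b * T := by rw [← h8]; group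
  rw [← h7, ← h3, h5]

lemma Eng.c7 (h : Eng x) {a b c : ι} (hab : a ≠ b) (hac : a ≠ c) (hbc : b ≠ c) :
    ta x a c b = (ta x a b c)⁻¹ := by
  have h1 := h.c6 hab hac hbc
  have h2 : (x b)⁻¹ * tt x a c * x b = tt x a c * ta x a c b := by unfold ta; group
  have h3 : (x c)⁻¹ * tt x a b * x c = tt x a b * ta x a b c := by unfold ta; group
  rw [h2, h3, mul_assoc, mul_right_inj] at h1
  have h4 : tt x a b * ta x a b c = ta x a b c * tt x a b := h.c5t hab hac hbc
  rw [h4, ← mul_assoc] at h1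
  have h5 : ta x a c b * ta x a b c = 1 := by
    have h6 : ta x a c b * ta x a b c * tt x a b = 1 * tt x a b := by rw [h1, one_mul]
    exact mul_right_cancel h6
  exact eq_inv_of_mul_eq_one_left h5

lemma Eng.c8 (h : Eng x) {a b c : ι} (hab : a ≠ b) (hac : a ≠ c) (hbc : b ≠ c) :
    ta x b a c = (ta x a b c)⁻¹ := by
  have h3 : (x c)⁻¹ * tt x a b * x c = tt x a b * ta x a b c := by unfold ta; group
  have h4 : tt x a b * ta x a b c = ta x a b c * tt x a b := h.c5t hab hac hbc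
  have h5 : ta x b a c = tt x a b * ((x c)⁻¹ * tt x a b * x c)⁻¹ := by
    unfold ta; rw [tt_swap x a b]; group
  rw [h5, h3, h4]; group

lemma Eng.c9 (h : Eng x) {a b c : ι} (hab : a ≠ b) (hac : a ≠ c) (hbc : b ≠ c) :
    Commute (x c) (ta x a b c) := by
  have h1 := h.c7 hac hab hbc.symm
  rw [h1]
  exact (h.c5b hac hab hbc.symm).inv_right

/-- abstract computation -/
lemma cube_aux {x y z t r q τ : G} (ht : t = x⁻¹ * y⁻¹ * x * y) (hr : r = x⁻¹ * z⁻¹ * x * z)
    (hq : q = y⁻¹ * z⁻¹ * y * z) (hx : Commute x τ) (hy : Commute y τ) (hz : Commute z τ)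
    (htx : Commute x t) (hty : Commute y t) (hrx : Commute x r) (hrz : Commute z r)
    (htz : z⁻¹ * t * z = t * τ) (hry : y⁻¹ * r * y = r * τ⁻¹) (hqx : x⁻¹ * q * x = q * τ) :
    Commute z (t ^ 3) := by
  have hτt : Commute t τ := by
    rw [ht]
    exact ((hx.inv_left.mul_left hy.inv_left).mul_left hx).mul_left hy
  have hτr : Commute r τ := by
    rw [hr]
    exact ((hx.inv_left.mul_left hz.inv_left).mul_left hx).mul_left hz
  have hτq : Commute q τ := by
    rw [hq]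
    exact ((hy.inv_left.mul_left hz.inv_left).mul_left hy).mul_left hz
  -- z t z⁻¹ = t τ⁻¹
  have e1 : z * t * z⁻¹ = t * τ⁻¹ := by
    have h1 : t * z = z * (t * τ) := by rw [← htz]; group
    have h2 : z * τ = τ * z := hz
    have h3 : t * τ = τ * t := hτt
    have h5 : z * τ⁻¹ = τ⁻¹ * z := hz.inv_right
    calc z * t * z⁻¹ = z * (t * τ) * τ⁻¹ * z⁻¹ := by group
      _ = t * (z * τ⁻¹) * z⁻¹ := by rw [← h1]; group
      _ = t * τ⁻¹ := by rw [h5]; group
  have e2 : y * r * y⁻¹ = r * τ := by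
    have h1 : r * y = y * (r * τ⁻¹) := by rw [← hry]; group
    have h5 : y * τ = τ * y := hy
    calc y * r * y⁻¹ = y * (r * τ⁻¹) * τ * y⁻¹ := by group
      _ = r * (y * τ) * y⁻¹ := by rw [← h1]; group
      _ = r * τ := by rw [h5]; group
  -- t commutes with z⁻¹ x z and z⁻¹ y z
  have e3 : Commute t (z⁻¹ * x * z) := by
    have h1 : Commute (z * t * z⁻¹) x := by
      rw [e1]
      exact (htx.mul_right hx.inv_right).symm
    have h2 : z * t * z⁻¹ * x = x * (z * t * z⁻¹) := h1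
    change t * (z⁻¹ * x * z) = z⁻¹ * x * z * t
    calc t * (z⁻¹ * x * z) = z⁻¹ * (z * t * z⁻¹ * x) * z := by group
      _ = z⁻¹ * x * z * t := by rw [h2]; group
  have e4 : Commute t (z⁻¹ * y * z) := by
    have h1 : Commute (z * t * z⁻¹) y := by
      rw [e1]
      exact (hty.mul_right hy.inv_right).symm
    have h2 : z * t * z⁻¹ * y = y * (z * t * z⁻¹) := h1
    change t * (z⁻¹ * y * z) = z⁻¹ * y * z * t
    calc t * (z⁻¹ * y * z) = z⁻¹ * (z * t * z⁻¹ * y) * z := by group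
      _ = z⁻¹ * y * z * t := by rw [h2]; group
  have e5 : Commute r (y⁻¹ * z * y) := by
    have h1 : Commute (y * r * y⁻¹) z := by
      rw [e2]
      exact (hrz.mul_right hz).symm
    have h2 : y * r * y⁻¹ * z = z * (y * r * y⁻¹) := h1
    change r * (y⁻¹ * z * y) = y⁻¹ * z * y * r
    calc r * (y⁻¹ * z * y) = y⁻¹ * (y * r * y⁻¹ * z) * y := by group
      _ = y⁻¹ * z * y * r := by rw [h2]; group
  have htr : Commute t r := by
    have h1 : r = x⁻¹ * (z⁻¹ * x * z) := by rw [hr]; group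
    rw [h1]
    exact htx.symm.inv_right.mul_right e3
  have htq : Commute t q := by
    have h1 : q = y⁻¹ * (z⁻¹ * y * z) := by rw [hq]; group
    rw [h1]
    exact hty.symm.inv_right.mul_right e4
  have hrq : Commute r q := by
    have h1 : q = (y⁻¹ * z * y)⁻¹ * z := by rw [hq]; group
    rw [h1]
    exact e5.inv_right.mul_right hrz.symm
  -- q⁻¹ x q = x τ⁻¹
  have e6 : q⁻¹ * x * q = x * τ⁻¹ := by
    have h1 : q * x = x * (q * τ) := by rw [← hqx]; group
    have h2 : q * τ = τ * q := hτq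
    have h3 : x * τ = τ * x := hx
    have h4 : x * q = q * x * τ⁻¹ := by rw [h1]; group
    rw [mul_assoc, h4]; group
  -- two computations of x ^ (y z)
  have e7 : (y * z)⁻¹ * x * (y * z) = x * r * (t * τ) := by
    calc (y * z)⁻¹ * x * (y * z) = z⁻¹ * (x * (x⁻¹ * y⁻¹ * x * y)) * z := by group
      _ = z⁻¹ * (x * t) * z := by rw [← ht]
      _ = x * (x⁻¹ * z⁻¹ * x * z) * (z⁻¹ * t * z) := by group
      _ = x * r * (t * τ) := by rw [← hr, htz]
  have e8 : (y * z)⁻¹ * x * (y * z) = x * τ⁻¹ * t * (r * τ⁻¹) := by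
    have h1 : y * z = z * y * q := by rw [hq]; group
    have h2 : t * q = q * t := htq
    have h3 : (r * τ⁻¹) * q = q * (r * τ⁻¹) := (hrq.mul_left (hτq.symm.inv_left))
    calc (y * z)⁻¹ * x * (y * z) = (z * y * q)⁻¹ * x * (z * y * q) := by rw [← h1]
      _ = q⁻¹ * (y⁻¹ * (x * (x⁻¹ * z⁻¹ * x * z)) * y) * q := by group
      _ = q⁻¹ * (y⁻¹ * (x * r) * y) * q := by rw [← hr]
      _ = q⁻¹ * (x * (x⁻¹ * y⁻¹ * x * y) * (y⁻¹ * r * y)) * q := by group
      _ = q⁻¹ * (x * t * (r * τ⁻¹)) * q := by rw [← ht, hry]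
      _ = q⁻¹ * x * (t * ((r * τ⁻¹) * q)) := by group
      _ = q⁻¹ * x * (t * q) * (r * τ⁻¹) := by rw [h3]; group
      _ = q⁻¹ * x * q * t * (r * τ⁻¹) := by rw [h2]; group
      _ = x * τ⁻¹ * t * (r * τ⁻¹) := by rw [e6]
  have e9 : τ ^ 3 = 1 := by
    have h1 : x * r * (t * τ) = x * τ⁻¹ * t * (r * τ⁻¹) := by rw [← e7, e8]
    have h2 : r * t = t * r := htr.symm
    have h3 : τ⁻¹ * t = t * τ⁻¹ := hτt.symm.inv_left
    have h4 : τ⁻¹ * r = r * τ⁻¹ := hτr.symm.inv_left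
    have h5 : x * (t * r) * τ = x * (t * r) * (τ⁻¹ * τ⁻¹) := by
      calc x * (t * r) * τ = x * r * (t * τ) := by rw [← h2]; group
        _ = x * τ⁻¹ * t * (r * τ⁻¹) := h1
        _ = x * (τ⁻¹ * t) * r * τ⁻¹ := by group
        _ = x * t * (τ⁻¹ * r) * τ⁻¹ := by rw [h3]; group
        _ = x * (t * r) * (τ⁻¹ * τ⁻¹) := by rw [h4]; group
    have h6 : τ = τ⁻¹ * τ⁻¹ := mul_left_cancel h5
    calc τ ^ 3 = τ * τ * τ := by rw [pow_succ, pow_two]
      _ = τ * τ * (τ⁻¹ * τ⁻¹) := by rw [← h6]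
      _ = 1 := by group
  have e10 : z⁻¹ * t ^ 3 * z = t ^ 3 := by
    have h1 : z⁻¹ * t ^ 3 * z = (z⁻¹ * t * z) ^ 3 := by
      rw [pow_succ, pow_two, pow_succ, pow_two]; group
    rw [h1, htz, hτt.mul_pow, e9, mul_one]
  change z * t ^ 3 = t ^ 3 * z
  conv_lhs => rw [← e10]
  group

lemma Eng.cube (h : Eng x) {a b c : ι} (hab : a ≠ b) (hac : a ≠ c) (hbc : b ≠ c) :
    Commute (x c) ((tt x a b) ^ 3) := by
  refine cube_aux (x := x a) (y := x b) (z := x c) (t := tt x a b) (r := tt x a c)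
    (q := tt x b c) (τ := ta x a b c) rfl rfl rfl (h.c5a hab hac hbc) (h.c5b hab hac hbc)
    (h.c9 hab hac hbc) (h.c1 hab) (h.c2 hab) (h.c1 hac) (h.c2 hac) ?_ ?_ ?_
  · unfold ta; group
  · rw [← h.c7 hab hac hbc]
    unfold ta; group
  · have h1 : ta x b c a = ta x a b c := by
      rw [h.c7 hab.symm hbc hac, h.c8 hab hac hbc, inv_inv]
    rw [← h1]
    unfold ta; group

end levi

section homog

variable {n : ℕ} {G : Type*} [Group G] {x : Fin n → G}

lemma eng_of (hx : Homog x) {i j : Fin n} (hij : i ≠ j)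
    (h : Commute (x i) ((x j)⁻¹ * x i * x j)) : Eng x := by
  have key : ∀ a b : Fin n, a ≠ b → ∃ φ : MulAut G, φ (x i) = x a ∧ φ (x j) = x b := by
    intro a b hab
    obtain ⟨s, hs1, hs2⟩ : ∃ s : Equiv.Perm (Fin n), s i = a ∧ s j = b := by
      refine ⟨(Equiv.swap i a).trans (Equiv.swap ((Equiv.swap i a) j) b), ?_, ?_⟩
      · rw [Equiv.trans_apply, Equiv.swap_apply_left, Equiv.swap_apply_of_ne_of_ne _ hab]
        intro h1
        have h2 : (Equiv.swap i a) j = (Equiv.swap i a) i := by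
          rw [← h1, Equiv.swap_apply_left]
        exact hij ((Equiv.swap i a).injective h2).symm
      · rw [Equiv.trans_apply, Equiv.swap_apply_left]
    obtain ⟨φ, hφ⟩ := hx.perm s
    exact ⟨φ, by rw [hφ, hs1], by rw [hφ, hs2]⟩
  have main : ∀ ψ : MulAut G, ∀ a b : Fin n, a ≠ b →
      Commute (ψ (x a)) ((ψ (x b))⁻¹ * ψ (x a) * ψ (x b)) := by
    intro ψ a b hab
    obtain ⟨φ, h1, h2⟩ := key a b hab
    have h3 := (h.map (ψ * φ).toMonoidHom)
    simpa [h1, h2] using h3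
  have tr : ∀ a b c : Fin n, a ≠ b → a ≠ c → b ≠ c → ∃ ψ : MulAut G,
      ψ (x a) = x a ∧ ψ (x b) = x b * x c := by
    intro a b c hab hac hbc
    obtain ⟨φ, -, h1, h2⟩ := hx.exTr b (one_mem _) (mem_ne (x := x) hbc.symm)
    refine ⟨φ, h1 a hab, ?_⟩
    rw [h2]; group
  refine ⟨?_, ?_, ?_⟩
  · intro a b hab
    exact main 1 a b hab
  · intro a b c hab hac hbc
    obtain ⟨ψ, h1, h2⟩ := tr a b c hab hac hbc
    have h3 := main ψ a b hab
    rwa [h1, h2] at h3
  · intro a b c hab hac hbc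
    obtain ⟨ψ, h1, h2⟩ := tr a b c hab hac hbc
    have h3 := main ψ b a hab.symm
    rwa [h1, h2] at h3

/-- in a finite simple homogeneous group a letter does not commute with its conjugate by
another letter -/
theorem levi [Finite G] [IsSimpleGroup G] (hx : Homog x) (hn : 3 ≤ n) {i j : Fin n}
    (hij : i ≠ j) : ¬ Commute (x i) ((x j)⁻¹ * x i * x j) := by
  intro h
  have he := eng_of hx hij h
  obtain ⟨k, hki, hkj⟩ : ∃ k : Fin n, k ≠ i ∧ k ≠ j := by
    have : ∃ k : Fin n, k ∉ ({i, j} : Finset (Fin n)) := by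
      by_contra hcon
      push Not at hcon
      have h1 : (Finset.univ : Finset (Fin n)) ⊆ {i, j} := fun k _ => hcon k
      have h2 := Finset.card_le_card h1
      have h3 : ({i, j} : Finset (Fin n)).card ≤ 2 := Finset.card_le_two
      rw [Finset.card_univ, Fintype.card_fin] at h2
      omega
    obtain ⟨k, hk⟩ := this
    simp only [Finset.mem_insert, Finset.mem_singleton, not_or] at hk
    exact ⟨k, hk.1, hk.2⟩
  have h1 := he.cube hij hki.symm hkj.symm
  have hmem : (tt x i j) ^ 3 ∈ closure (x '' {m | m ≠ k}) := by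
    apply Subgroup.pow_mem
    unfold tt
    have hi : x i ∈ closure (x '' {m | m ≠ k}) := mem_ne hki.symm
    have hj : x j ∈ closure (x '' {m | m ≠ k}) := mem_ne hkj.symm
    exact mul_mem (mul_mem (mul_mem (inv_mem hi) (inv_mem hj)) hi) hj
  have h2 : (tt x i j) ^ 3 = 1 :=
    (hx.malnormal (by omega) k hmem hmem h1.eq.symm).1
  have h3 : (x j)⁻¹ * (x i) ^ 3 * x j = (x i) ^ 3 := by
    have e1 : (x j)⁻¹ * x i * x j = x i * tt x i j := by unfold tt; group
    have e2 : (x j)⁻¹ * (x i) ^ 3 * x j = ((x j)⁻¹ * x i * x j) ^ 3 := by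
      rw [pow_succ, pow_two, pow_succ, pow_two]; group
    rw [e2, e1, (he.c1 hij).mul_pow, h2, mul_one]
  have h4 : (x i) ^ 3 * x j = x j * (x i) ^ 3 := by
    conv_rhs => rw [← h3]
    group
  have hmem2 : (x i) ^ 3 ∈ closure (x '' {m | m ≠ j}) := Subgroup.pow_mem _ (mem_ne hij) 3
  have h5 : (x i) ^ 3 = 1 := (hx.malnormal (by omega) j hmem2 hmem2 h4).1
  have h6 := hx.four_le_order (by omega) i
  have h7 : orderOf (x i) ≤ 3 := orderOf_le_of_pow_eq_one (by norm_num) h5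
  omega

/-- the square of a letter does not commute with another letter -/
theorem sq_not_commute [Finite G] [IsSimpleGroup G] (hx : Homog x) (hn : 3 ≤ n) {i j : Fin n}
    (hij : i ≠ j) : ¬ Commute ((x i) ^ 2) (x j) := by
  intro h
  have hmem2 : (x i) ^ 2 ∈ closure (x '' {m | m ≠ j}) := Subgroup.pow_mem _ (mem_ne hij) 2
  have h5 : (x i) ^ 2 = 1 := (hx.malnormal (by omega) j hmem2 hmem2 h.eq).1
  have h6 := hx.four_le_order (by omega) i
  have h7 : orderOf (x i) ≤ 2 := orderOf_le_of_pow_eq_one (by norm_num) h5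
  omega

end homog

end Pool.Agent.H5.LD
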