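import Mathlib

set_option autoImplicit false

namespace Pool.Agent.H5.LD

open Module

section form

variable {F : Type*} [Field F] {V : Type*} [AddCommGroup V] [Module F V]

/-- the standard alternating form on `V* × V` -/
noncomputable def om : LinearMap.BilinForm F (Dual F V × V) :=
  LinearMap.mk₂ F (fun p q => p.1 q.2 - q.1 p.2)
    (fun a b c => by
      simp only [Prod.fst_add, Prod.snd_add, LinearMap.add_apply, map_add]; ring)
    (fun t a b => by
      simp only [Prod.smul_fst, Prod.smul_snd, LinearMap.smul_apply, map_smul, smul_eq_mul]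
      ring)
    (fun a b c => by
      simp only [Prod.fst_add, Prod.snd_add, LinearMap.add_apply, map_add]; ring)
    (fun t a b => by
      simp only [Prod.smul_fst, Prod.smul_snd, LinearMap.smul_apply, map_smul, smul_eq_mul]
      ring)

lemma om_apply (p q : Dual F V × V) : om p q = p.1 q.2 - q.1 p.2 := rfl

lemma om_nondeg : (om (F := F) (V := V)).Nondegenerate := by
  constructor
  · rintro ⟨φ, v⟩ h
    have h1 : φ = 0 := by
      ext w
      have := h (0, w)
      rw [om_apply] at this
      simpa using this
    have h2 : v = 0 := by
      rw [← Module.forall_dual_apply_eq_zero_iff F v]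
      intro ψ
      have := h (ψ, 0)
      rw [om_apply] at this
      simpa using this
    rw [h1, h2]
    rfl
  · rintro ⟨φ, v⟩ h
    have h1 : φ = 0 := by
      ext w
      have := h (0, w)
      rw [om_apply] at this
      simpa using this
    have h2 : v = 0 := by
      rw [← Module.forall_dual_apply_eq_zero_iff F v]
      intro ψ
      have := h (ψ, 0)
      rw [om_apply] at this
      simpa using this
    rw [h1, h2]
    rfl

lemma finrank_isotropic [FiniteDimensional F V] (S : Submodule F (Dual F V × V))
    (h : ∀ p ∈ S, ∀ q ∈ S, om p q = 0) : finrank F S ≤ finrank F V := by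
  have h1 : S ≤ LinearMap.BilinForm.orthogonal om S := by
    intro q hq p hp
    exact h p hp q hq
  have h2 := LinearMap.BilinForm.finrank_orthogonal (B := om (F := F) (V := V)) om_nondeg S
  have h3 := Submodule.finrank_mono h1
  have h4 : finrank F (Dual F V × V) = 2 * finrank F V := by
    rw [Module.finrank_prod, Subspace.dual_finrank_eq]
    ring
  have h5 := Submodule.finrank_le S
  omega

end form

section chain

variable {F : Type*} [Field F] [Infinite F] {V : Type*} [AddCommGroup V] [Module F V]

lemma exists_vec {ι : Type*} [Finite ι] (N : ι → Module.End F V) (hN : ∀ i, N i ≠ 0) :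
    ∃ v : V, ∀ i, N i v ≠ 0 := by
  by_contra hcon
  push Not at hcon
  have h1 : ⋃ i, ((LinearMap.ker (N i) : Submodule F V) : Set V) = Set.univ := by
    rw [Set.eq_univ_iff_forall]
    intro v
    obtain ⟨i, hi⟩ := hcon v
    exact Set.mem_iUnion.mpr ⟨i, LinearMap.mem_ker.mpr hi⟩
  obtain ⟨i, hi⟩ := Subspace.exists_eq_top_of_iUnion_eq_univ h1
  exact hN i (LinearMap.ker_eq_top.mp hi)

lemma exists_dual {ι : Type*} [Finite ι] (w : ι → V) (hw : ∀ i, w i ≠ 0) :
    ∃ φ : Dual F V, ∀ i, φ (w i) ≠ 0 := by
  by_contra hcon
  push Not at hcon
  have h1 : ⋃ i, ((LinearMap.ker (Dual.eval F V (w i)) : Submodule F (Dual F V)) :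
      Set (Dual F V)) = Set.univ := by
    rw [Set.eq_univ_iff_forall]
    intro φ
    obtain ⟨i, hi⟩ := hcon φ
    refine Set.mem_iUnion.mpr ⟨i, ?_⟩
    change φ ∈ LinearMap.ker (Dual.eval F V (w i))
    rw [LinearMap.mem_ker, Dual.eval_apply]
    exact hi
  obtain ⟨i, hi⟩ := Subspace.exists_eq_top_of_iUnion_eq_univ h1
  apply hw i
  rw [← Module.forall_dual_apply_eq_zero_iff F (w i)]
  intro φ
  have h2 : φ ∈ LinearMap.ker (Dual.eval F V (w i)) := by rw [hi]; trivial
  rwa [LinearMap.mem_ker, Dual.eval_apply] at h2

/-- the chain lemma over an infinite field -/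
theorem chain_inf [FiniteDimensional F V] {ι : Type*} [Fintype ι] [LinearOrder ι] [Nonempty ι]
    (a b : ι → Module.End F V) (hb : ∀ i j, b i * b j = b j * b i)
    (hab : ∀ i j, j < i → a i * b j = b j * a i) (hne : ∀ i, a i * b i ≠ b i * a i) :
    Fintype.card ι + 1 ≤ finrank F V := by
  classical
  obtain ⟨v, hv⟩ := exists_vec (fun i => a i * b i - b i * a i)
    (fun i => sub_ne_zero.mpr (hne i))
  obtain ⟨φ, hφ⟩ := exists_dual (F := F) (fun i => (a i * b i - b i * a i) v) hv
  let w : Module.End F V → Dual F V × V := fun y => (φ.comp y, y v)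
  have hw : ∀ y z : Module.End F V, om (w y) (w z) = φ ((y * z - z * y) v) := by
    intro y z
    rw [om_apply]
    simp only [w, LinearMap.comp_apply, LinearMap.sub_apply, Module.End.mul_apply, map_sub]
  let f : Option ι → Dual F V × V := fun o => w (o.elim 1 b)
  have hcomm : ∀ o o' : Option ι, (o.elim 1 b : Module.End F V) * o'.elim 1 b =
      o'.elim 1 b * o.elim 1 b := by
    rintro (_ | i) (_ | j)
    · rfl
    · simp
    · simp
    · exact hb i j
  have hlin : LinearIndependent F f := by
    rw [Fintype.linearIndependent_iff]
    intro g hg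
    have htest : ∀ i, ∑ o, g o * om (w (a i)) (f o) = 0 := by
      intro i
      have h1 := congrArg (om (w (a i))) hg
      rw [map_sum, map_zero] at h1
      rw [← h1]
      refine Finset.sum_congr rfl fun o _ => ?_
      rw [map_smul, smul_eq_mul]
    have hnone : ∀ i, om (w (a i)) (f none) = 0 := by
      intro i
      rw [hw]
      simp
    have hsome : ∀ i, g (some i) = 0 := by
      intro i
      induction i using WellFounded.induction (r := fun p q : ι => q < p)
          (hwf := wellFounded_gt) with
      | _ i ih =>
        have h1 := htest i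
        rw [Fintype.sum_option, hnone, mul_zero, zero_add] at h1
        rw [Finset.sum_eq_single i] at h1
        · rw [hw] at h1
          rcases mul_eq_zero.mp h1 with h2 | h2
          · exact h2
          · exact absurd h2 (hφ i)
        · intro j _ hj
          rcases lt_or_gt_of_ne hj with h2 | h2
          · have h3 : om (w (a i)) (f (some j)) = 0 := by
              change om (w (a i)) (w (b j)) = 0
              rw [hw, hab i j h2, sub_self]
              simp
            rw [h3, mul_zero]
          · rw [ih j h2, zero_mul]
        · intro h2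
          exact absurd (Finset.mem_univ i) h2
    rintro (_ | i)
    · rw [Fintype.sum_option] at hg
      simp only [hsome, zero_smul, Finset.sum_const_zero, add_zero] at hg
      rcases smul_eq_zero.mp hg with h1 | h1
      · exact h1
      · exfalso
        have h2 : v = 0 := by
          have := congrArg Prod.snd h1
          simpa [f, w] using this
        apply hv (Classical.arbitrary ι)
        rw [h2]
        simp
    · exact hsome i
  have hiso : ∀ p ∈ Submodule.span F (Set.range f), ∀ q ∈ Submodule.span F (Set.range f),
      om p q = 0 := by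
    have h1 : ∀ o, ∀ q ∈ Submodule.span F (Set.range f), om (f o) q = 0 := by
      intro o q hq
      induction hq using Submodule.span_induction with
      | mem q hq =>
        obtain ⟨o', rfl⟩ := hq
        change om (w _) (w _) = 0
        rw [hw, hcomm, sub_self]
        simp
      | zero => simp
      | add q q' _ _ h2 h3 => rw [map_add, h2, h3, add_zero]
      | smul t q _ h2 => rw [map_smul, h2, smul_zero]
    intro p hp q hq
    induction hp using Submodule.span_induction with
    | mem p hp =>
      obtain ⟨o, rfl⟩ := hp
      exact h1 o q hq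
    | zero => simp
    | add p p' _ _ h2 h3 => rw [map_add, LinearMap.add_apply, h2, h3, add_zero]
    | smul t p _ h2 => rw [map_smul, LinearMap.smul_apply, h2, smul_zero]
  have h6 := finrank_isotropic _ hiso
  rw [finrank_span_eq_card hlin, Fintype.card_option] at h6
  exact h6

end chain

/-- the chain lemma for matrices over an arbitrary field -/
theorem chain {F : Type*} [Field F] {d : ℕ} {ι : Type*} [Fintype ι] [LinearOrder ι] [Nonempty ι]
    (a b : ι → Matrix (Fin d) (Fin d) F) (hb : ∀ i j, b i * b j = b j * b i)
    (hab : ∀ i j, j < i → a i * b j = b j * a i) (hne : ∀ i, a i * b i ≠ b i * a i) :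
    Fintype.card ι + 1 ≤ d := by
  let K := AlgebraicClosure F
  have hinf : Infinite K := IsAlgClosed.instInfinite
  let Φ : Matrix (Fin d) (Fin d) F →+* Module.End K (Fin d → K) :=
    ((Matrix.toLinAlgEquiv' (R := K) (n := Fin d)).toAlgHom.toRingHom).comp
      ((algebraMap F K).mapMatrix)
  have hΦ : Function.Injective Φ := by
    intro p q hpq
    have h1 : (algebraMap F K).mapMatrix p = (algebraMap F K).mapMatrix q :=
      (Matrix.toLinAlgEquiv' (R := K) (n := Fin d)).injective hpq
    exact Matrix.map_injective (algebraMap F K).injective h1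
  have h1 := chain_inf (F := K) (V := Fin d → K) (fun i => Φ (a i)) (fun i => Φ (b i))
    (fun i j => by rw [← map_mul, ← map_mul, hb])
    (fun i j h => by rw [← map_mul, ← map_mul, hab i j h])
    (fun i h => hne i (hΦ (by rw [map_mul, map_mul, h])))
  rwa [Module.finrank_fin_fun] at h1

end Pool.Agent.H5.LD
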