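import Pool.Agent.H5.LD.Four

set_option autoImplicit false

namespace Pool.Agent.H5.LD

open Subgroup Pool.Agent.H5CS

section rank3

variable {G : Type*} [Group G] {x : Fin 3 → G} {E : Type*} [Group E] {q : E →* G}

/-- the involution-like element inverting the first two letters -/
lemma Trv.exists_iota (T : Trv x) :
    ∃ w : G, MulAut.conj w (x 0) = (x 0)⁻¹ ∧ MulAut.conj w (x 1) = (x 1)⁻¹ ∧
      MulAut.conj w (x 2) = x 2 := by
  have h01 : (0 : Fin 3) ≠ 1 := by decide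
  have h10 : (1 : Fin 3) ≠ 0 := by decide
  have h20 : (2 : Fin 3) ≠ 0 := by decide
  have h21 : (2 : Fin 3) ≠ 1 := by decide
  have i0 : MulAut.conj (T.l 0 1)⁻¹ (x 0) = x 1 * x 0 := by
    apply conj_inv_eq
    rw [map_mul, T.lmul h01, T.lfix h01 h10]; group
  have i1 : MulAut.conj (T.l 0 1)⁻¹ (x 1) = x 1 := conj_inv_eq (T.lfix h01 h10)
  have i2 : MulAut.conj (T.l 0 1)⁻¹ (x 2) = x 2 := conj_inv_eq (T.lfix h01 h20)
  set v : G := (T.l 0 1)⁻¹ * T.l 1 0 * T.r 0 1 with hv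
  have hact : ∀ g, MulAut.conj v g =
      MulAut.conj (T.l 0 1)⁻¹ (MulAut.conj (T.l 1 0) (MulAut.conj (T.r 0 1) g)) := by
    intro g
    rw [hv, map_mul, map_mul, MulAut.mul_apply, MulAut.mul_apply]
  have v0 : MulAut.conj v (x 0) = x 1 := by
    rw [hact, T.rmul h01, map_mul, T.lfix h10 h01, T.lmul h10, mul_inv_cancel_left, i1]
  have v1 : MulAut.conj v (x 1) = (x 0)⁻¹ := by
    rw [hact, T.rfix h01 h10, T.lmul h10]
    have h1 : MulAut.conj (T.l 0 1)⁻¹ ((x 0)⁻¹ * x 1) = (x 1 * x 0)⁻¹ * x 1 := by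
      rw [map_mul (MulAut.conj (T.l 0 1)⁻¹), map_inv (MulAut.conj (T.l 0 1)⁻¹), i0, i1]
    rw [h1]; group
  have v2 : MulAut.conj v (x 2) = x 2 := by
    rw [hact, T.rfix h01 h20, T.lfix h10 h21, i2]
  refine ⟨v * v, ?_, ?_, ?_⟩
  · rw [map_mul, MulAut.mul_apply, v0, v1]
  · rw [map_mul, MulAut.mul_apply, v1, map_inv, v0]
  · rw [map_mul, MulAut.mul_apply, v2, v2]

lemma fin3 {P : Fin 3 → Prop} (h0 : P 0) (h1 : P 1) (h2 : P 2) : ∀ m, P m := by
  intro m
  fin_cases m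
  · exact h0
  · exact h1
  · exact h2

lemma conj_eq_of {g h k : G} (he : g * h = k * g) : g * h * g⁻¹ = k := by
  rw [he]; group

section

variable [IsSimpleGroup G]

/-- `x 0⁻¹` as a product of four transvections -/
lemma Trv.prod_eq (T : Trv x) (hx : Homog x) :
    T.l 1 0 * T.r 1 0 * T.l 2 0 * T.r 2 0 = (x 0)⁻¹ := by
  have h10 : (1 : Fin 3) ≠ 0 := by decide
  have h20 : (2 : Fin 3) ≠ 0 := by decide
  have h01 : (0 : Fin 3) ≠ 1 := by decide
  have h02 : (0 : Fin 3) ≠ 2 := by decide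
  have h12 : (1 : Fin 3) ≠ 2 := by decide
  have h21 : (2 : Fin 3) ≠ 1 := by decide
  have hs : T.l 1 0 * T.r 1 0 * T.l 2 0 * T.r 2 0 * x 0 = 1 := by
    apply ext_conj hx (by norm_num)
    apply fin3
    all_goals
      rw [map_mul, map_mul, map_mul, map_mul, MulAut.mul_apply, MulAut.mul_apply,
        MulAut.mul_apply, MulAut.mul_apply, MulAut.conj_apply (x 0)]
    · simp only [map_mul, map_inv, T.rfix h20 h02, T.lfix h20 h02, T.rfix h10 h01,
        T.lfix h10 h01, MulAut.conj_apply, one_mul, inv_one, mul_one]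
      group
    · simp only [map_mul, map_inv, T.rfix h20 h02, T.lfix h20 h02, T.rfix h10 h01,
        T.lfix h10 h01, T.rfix h20 h12, T.lfix h20 h12, T.rmul h10, T.lmul h10,
        MulAut.conj_apply (1 : G), one_mul, inv_one, mul_one]
      group
    · simp only [map_mul, map_inv, T.rfix h20 h02, T.lfix h20 h02, T.rfix h10 h01,
        T.lfix h10 h01, T.rfix h10 h21, T.lfix h10 h21, T.rmul h20, T.lmul h20,
        MulAut.conj_apply (1 : G), one_mul, inv_one, mul_one]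
      group
  exact eq_inv_of_mul_eq_one_left hs

variable {w : G}

lemma Trv.iota_r1 (T : Trv x) (hx : Homog x) (w0 : MulAut.conj w (x 0) = (x 0)⁻¹)
    (w1 : MulAut.conj w (x 1) = (x 1)⁻¹) (w2 : MulAut.conj w (x 2) = x 2) :
    w * T.r 1 0 * w⁻¹ = (T.l 1 0)⁻¹ := by
  have h10 : (1 : Fin 3) ≠ 0 := by decide
  have h01 : (0 : Fin 3) ≠ 1 := by decide
  have h21 : (2 : Fin 3) ≠ 1 := by decide
  have hs : T.l 1 0 * w * T.r 1 0 = w := by
    apply ext_conj hx (by norm_num)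
    apply fin3
    all_goals rw [map_mul, map_mul, MulAut.mul_apply, MulAut.mul_apply]
    · rw [T.rfix h10 h01, w0, map_inv, T.lfix h10 h01]
    · rw [T.rmul h10, map_mul, w0, w1, map_mul, map_inv, map_inv, T.lmul h10, T.lfix h10 h01]
      group
    · rw [T.rfix h10 h21, w2, T.lfix h10 h21]
  apply conj_eq_of
  calc w * T.r 1 0 = (T.l 1 0)⁻¹ * (T.l 1 0 * w * T.r 1 0) := by group
    _ = (T.l 1 0)⁻¹ * w := by rw [hs]

lemma Trv.iota_l1 (T : Trv x) (hx : Homog x) (w0 : MulAut.conj w (x 0) = (x 0)⁻¹)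
    (w1 : MulAut.conj w (x 1) = (x 1)⁻¹) (w2 : MulAut.conj w (x 2) = x 2) :
    w * T.l 1 0 * w⁻¹ = (T.r 1 0)⁻¹ := by
  have h10 : (1 : Fin 3) ≠ 0 := by decide
  have h01 : (0 : Fin 3) ≠ 1 := by decide
  have h21 : (2 : Fin 3) ≠ 1 := by decide
  have hs : T.r 1 0 * w * T.l 1 0 = w := by
    apply ext_conj hx (by norm_num)
    apply fin3
    all_goals rw [map_mul, map_mul, MulAut.mul_apply, MulAut.mul_apply]
    · rw [T.lfix h10 h01, w0, map_inv, T.rfix h10 h01]
    · rw [T.lmul h10, map_mul, map_inv, w0, w1, map_mul, map_inv, map_inv, map_inv,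
        T.rmul h10, T.rfix h10 h01]
      group
    · rw [T.lfix h10 h21, w2, T.rfix h10 h21]
  apply conj_eq_of
  calc w * T.l 1 0 = (T.r 1 0)⁻¹ * (T.r 1 0 * w * T.l 1 0) := by group
    _ = (T.r 1 0)⁻¹ * w := by rw [hs]

lemma Trv.iota_t2 (T : Trv x) (hx : Homog x) (e : Bool)
    (w0 : MulAut.conj w (x 0) = (x 0)⁻¹)
    (w1 : MulAut.conj w (x 1) = (x 1)⁻¹) (w2 : MulAut.conj w (x 2) = x 2) :
    w * T.t e 2 0 * w⁻¹ = (T.t e 2 0)⁻¹ := by
  have h20 : (2 : Fin 3) ≠ 0 := by decide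
  have h02 : (0 : Fin 3) ≠ 2 := by decide
  have h12 : (1 : Fin 3) ≠ 2 := by decide
  have hs : T.t e 2 0 * w * T.t e 2 0 = w := by
    apply ext_conj hx (by norm_num)
    apply fin3
    all_goals rw [map_mul, map_mul, MulAut.mul_apply, MulAut.mul_apply]
    · rw [T.tfix e h20 h02, w0, map_inv, T.tfix e h20 h02]
    · rw [T.tfix e h20 h12, w1, map_inv, T.tfix e h20 h12]
    · cases e with
      | true =>
        change MulAut.conj (T.r 2 0) (MulAut.conj w (MulAut.conj (T.r 2 0) (x 2))) = _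
        rw [T.rmul h20, map_mul, w0, w2, map_mul, map_inv, T.rmul h20, T.rfix h20 h02]
        group
      | false =>
        change MulAut.conj (T.l 2 0) (MulAut.conj w (MulAut.conj (T.l 2 0) (x 2))) = _
        rw [T.lmul h20, map_mul, map_inv, w0, w2, map_mul, map_inv, map_inv, T.lmul h20,
          T.lfix h20 h02]
        group
  apply conj_eq_of
  calc w * T.t e 2 0 = (T.t e 2 0)⁻¹ * (T.t e 2 0 * w * T.t e 2 0) := by group
    _ = (T.t e 2 0)⁻¹ * w := by rw [hs]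

lemma Trv.iota_r12 (T : Trv x) (hx : Homog x) (w0 : MulAut.conj w (x 0) = (x 0)⁻¹)
    (w1 : MulAut.conj w (x 1) = (x 1)⁻¹) (w2 : MulAut.conj w (x 2) = x 2) :
    w * T.r 1 2 * w⁻¹ = T.l 1 2 := by
  have h12 : (1 : Fin 3) ≠ 2 := by decide
  have h01 : (0 : Fin 3) ≠ 1 := by decide
  have h21 : (2 : Fin 3) ≠ 1 := by decide
  apply conj_eq_of
  apply ext_conj hx (by norm_num)
  apply fin3
  all_goals rw [map_mul, map_mul, MulAut.mul_apply, MulAut.mul_apply]
  · rw [T.rfix h12 h01, w0, map_inv, T.lfix h12 h01]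
  · rw [T.rmul h12, map_mul, w1, w2, map_inv, T.lmul h12]
    group
  · rw [T.rfix h12 h21, w2, T.lfix h12 h21]

lemma Trv.conj_m_r (T : Trv x) (hx : Homog x) :
    T.r 0 2 * T.r 1 0 * (T.r 0 2)⁻¹ = T.r 1 0 * T.r 1 2 := by
  have h12 : (1 : Fin 3) ≠ 2 := by decide
  have h10 : (1 : Fin 3) ≠ 0 := by decide
  have h01 : (0 : Fin 3) ≠ 1 := by decide
  have h21 : (2 : Fin 3) ≠ 1 := by decide
  have h02 : (0 : Fin 3) ≠ 2 := by decide
  have h20 : (2 : Fin 3) ≠ 0 := by decide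
  apply conj_eq_of
  apply ext_conj hx (by norm_num)
  apply fin3
  all_goals
    rw [map_mul, map_mul, map_mul, MulAut.mul_apply, MulAut.mul_apply, MulAut.mul_apply]
  · rw [T.rfix h10 h01, T.rmul h02, map_mul, T.rfix h12 h01, T.rfix h12 h21, map_mul,
      T.rfix h10 h01, T.rfix h10 h21]
  · rw [T.rmul h10, map_mul, T.rfix h02 h10, T.rmul h02, T.rmul h12, map_mul, T.rmul h10,
      T.rfix h10 h21]
    group
  · rw [T.rfix h10 h21, T.rfix h02 h20, T.rfix h12 h21, T.rfix h10 h21]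

lemma Trv.conj_m_l (T : Trv x) (hx : Homog x) :
    T.r 0 2 * T.l 1 0 * (T.r 0 2)⁻¹ = T.l 1 0 * T.l 1 2 := by
  have h12 : (1 : Fin 3) ≠ 2 := by decide
  have h10 : (1 : Fin 3) ≠ 0 := by decide
  have h01 : (0 : Fin 3) ≠ 1 := by decide
  have h21 : (2 : Fin 3) ≠ 1 := by decide
  have h02 : (0 : Fin 3) ≠ 2 := by decide
  have h20 : (2 : Fin 3) ≠ 0 := by decide
  apply conj_eq_of
  apply ext_conj hx (by norm_num)
  apply fin3
  all_goals
    rw [map_mul, map_mul, map_mul, MulAut.mul_apply, MulAut.mul_apply, MulAut.mul_apply]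
  · rw [T.lfix h10 h01, T.rmul h02, map_mul, T.lfix h12 h01, T.lfix h12 h21, map_mul,
      T.lfix h10 h01, T.lfix h10 h21]
  · rw [T.lmul h10, map_mul, map_inv, T.rfix h02 h10, T.rmul h02, T.lmul h12, map_mul,
      map_inv, T.lmul h10, T.lfix h10 h21]
    group
  · rw [T.lfix h10 h21, T.rfix h02 h20, T.lfix h12 h21, T.lfix h10 h21]

/-- commutators of the transvections of the two letters are signs -/
lemma Trv.sign (T : Trv x) (hq : CExt q) (hx : Homog x) (e e' : Bool) :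
    (cc q (T.t e 1 0) (T.t e' 2 0)) ^ 2 = 1 := by
  have h10 : (1 : Fin 3) ≠ 0 := by decide
  have h20 : (2 : Fin 3) ≠ 0 := by decide
  have h02 : (0 : Fin 3) ≠ 2 := by decide
  have h01 : (0 : Fin 3) ≠ 1 := by decide
  have h12 : (1 : Fin 3) ≠ 2 := by decide
  obtain ⟨w, w0, w1, w2⟩ := T.exists_iota
  have hcr : Commute (T.r 1 0) (T.t e' 2 0) :=
    T.commute_t hx (by norm_num) true e' h10 h20 h12 h02 h01
  have hcl : Commute (T.l 1 0) (T.t e' 2 0) :=
    T.commute_t hx (by norm_num) false e' h10 h20 h12 h02 h01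
  have hr2 : Commute (T.r 2 0) (T.t e' 2 0) := by
    cases e' with
    | true => exact Commute.refl _
    | false => exact T.commute_rl hx (by norm_num) h20 h20
  have hl2 : Commute (T.l 2 0) (T.t e' 2 0) := by
    cases e' with
    | true => exact (T.commute_rl hx (by norm_num) h20 h20).symm
    | false => exact Commute.refl _
  have hr2c : cc q (T.r 2 0) (T.t e' 2 0) = 1 := by
    cases e' with
    | true => exact hq.cc_self _
    | false => exact T.c_rl hq hx (by norm_num) h20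
  have hl2c : cc q (T.l 2 0) (T.t e' 2 0) = 1 := by
    cases e' with
    | true =>
      change cc q (T.l 2 0) (T.r 2 0) = 1
      rw [hq.cc_swap, T.c_rl hq hx (by norm_num) h20, inv_one]
    | false => exact hq.cc_self _
  have e1 : cc q (T.l 1 0) (T.t e' 2 0) * cc q (T.r 1 0) (T.t e' 2 0) = 1 := by
    have h1 := T.c_x0 hq hx (by norm_num) e' h20
    have h2 : Commute (x 0) (T.t e' 2 0) := (T.commute_x e' h20 h02).symm
    have h3 : cc q (x 0)⁻¹ (T.t e' 2 0) = 1 := by rw [hq.cc_inv_left h2, h1, inv_one]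
    rw [← T.prod_eq hx, hq.cc_mul_left ((hcl.mul_left hcr).mul_left hl2) hr2,
      hq.cc_mul_left (hcl.mul_left hcr) hl2, hq.cc_mul_left hcl hcr, hl2c, hr2c, mul_one,
      mul_one] at h3
    exact h3
  have e2 : cc q (T.r 1 0) (T.t e' 2 0) = cc q (T.l 1 0) (T.t e' 2 0) := by
    rw [← hq.cc_conj hcr w, T.iota_r1 hx w0 w1 w2, T.iota_t2 hx e' w0 w1 w2,
      hq.cc_inv_left hcl.inv_right, hq.cc_inv_right hcl, inv_inv]
  cases e with
  | true =>
    change (cc q (T.r 1 0) (T.t e' 2 0)) ^ 2 = 1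
    rw [pow_two]
    rw [← e2] at e1
    exact e1
  | false =>
    change (cc q (T.l 1 0) (T.t e' 2 0)) ^ 2 = 1
    rw [pow_two]
    rw [e2] at e1
    exact e1

lemma Trv.sign2 (T : Trv x) (hq : CExt q) (hx : Homog x) :
    (cc q (T.r 1 2) (T.l 1 0)) ^ 2 = 1 := by
  have h10 : (1 : Fin 3) ≠ 0 := by decide
  have h12 : (1 : Fin 3) ≠ 2 := by decide
  obtain ⟨w, w0, w1, w2⟩ := T.exists_iota
  have c00 : Commute (T.r 1 0) (T.l 1 0) := T.commute_rl hx (by norm_num) h10 h10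
  have c02 : Commute (T.r 1 0) (T.l 1 2) := T.commute_rl hx (by norm_num) h10 h12
  have c20 : Commute (T.r 1 2) (T.l 1 0) := T.commute_rl hx (by norm_num) h12 h10
  have c22 : Commute (T.r 1 2) (T.l 1 2) := T.commute_rl hx (by norm_num) h12 h12
  have z00 := T.c_rl hq hx (by norm_num) h10
  have z22 := T.c_rl hq hx (by norm_num) h12
  have e1 : cc q (T.r 1 0) (T.l 1 2) * cc q (T.r 1 2) (T.l 1 0) = 1 := by
    have h1 := hq.cc_conj c00 (T.r 0 2)
    rw [z00, T.conj_m_r hx, T.conj_m_l hx,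
      hq.cc_mul_left (c00.mul_right c02) (c20.mul_right c22), hq.cc_mul_right c00 c02,
      hq.cc_mul_right c20 c22, z00, z22, one_mul, mul_one] at h1
    exact h1
  have e2 : cc q (T.r 1 2) (T.l 1 0) = cc q (T.r 1 0) (T.l 1 2) := by
    rw [← hq.cc_conj c20 w, T.iota_r12 hx w0 w1 w2, T.iota_l1 hx w0 w1 w2,
      hq.cc_inv_right c02.symm, hq.cc_swap (T.r 1 0) (T.l 1 2), inv_inv]
  rw [pow_two]
  rw [← e2] at e1
  exact e1

end

/-- the chain for `n = 3` -/
theorem chain_three [Finite G] [IsSimpleGroup G] (hq : CExt q) (hx : Homog x) (T : Trv x) :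
    HasChain q 4 := by
  have h10 : (1 : Fin 3) ≠ 0 := by decide
  have h20 : (2 : Fin 3) ≠ 0 := by decide
  have h02 : (0 : Fin 3) ≠ 2 := by decide
  have h01 : (0 : Fin 3) ≠ 1 := by decide
  have h12 : (1 : Fin 3) ≠ 2 := by decide
  have h21 : (2 : Fin 3) ≠ 1 := by decide
  have htt : ∀ e e' : Bool, Commute (T.t e 1 0) (T.t e' 2 0) :=
    fun e e' => T.commute_t hx (by norm_num) e e' h10 h20 h12 h02 h01
  have c00 : Commute (T.r 1 0) (T.l 1 0) := T.commute_rl hx (by norm_num) h10 h10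
  have c20 : Commute (T.r 1 2) (T.l 1 0) := T.commute_rl hx (by norm_num) h12 h10
  -- exactness between the letters
  have k1 : ∀ e e' : Bool, cc q (T.t e' 2 0) ((T.t e 1 0) ^ 2) = 1 := by
    intro e e'
    rw [hq.cc_sq_right (htt e e').symm, hq.cc_swap (T.t e 1 0) (T.t e' 2 0), inv_pow,
      T.sign hq hx, inv_one]
  have k2 : cc q ((T.r 1 0) ^ 2) ((T.l 1 0) ^ 2) = 1 := by
    rw [hq.cc_sq_right (c00.pow_left 2), hq.cc_sq_left c00, T.c_rl hq hx (by norm_num) h10]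
    simp
  have k3 : cc q (T.r 1 2) ((T.l 1 0) ^ 2) = 1 := by
    rw [hq.cc_sq_right c20, T.sign2 hq hx]
  have hx2 : ∀ e, Commute (x 2) (T.t e 1 0) := fun e => (T.commute_x e h10 h21).symm
  have hx0 : ∀ e, Commute (x 0) (T.t e 1 0) := fun e => (T.commute_x e h10 h01).symm
  have k4 : ∀ e, cc q (x 2 * x 0 * (x 2)⁻¹) ((T.t e 1 0) ^ 2) = 1 := by
    intro e
    have hc : Commute (x 2 * x 0 * (x 2)⁻¹) (T.t e 1 0) :=
      (((hx2 e).mul_left (hx0 e)).mul_left (hx2 e).inv_left)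
    have h1 := hq.cc_conj (hx0 e) (x 2)
    have h2 : x 2 * T.t e 1 0 * (x 2)⁻¹ = T.t e 1 0 := by
      rw [(hx2 e).eq]; group
    rw [h2, T.c_x0 hq hx (by norm_num) e h10] at h1
    rw [hq.cc_sq_right hc, h1, one_pow]
  have k5 : ∀ e, cc q ((x 2)⁻¹ * x 0 * x 2) ((T.t e 1 0) ^ 2) = 1 := by
    intro e
    have hc : Commute ((x 2)⁻¹ * x 0 * x 2) (T.t e 1 0) :=
      (((hx2 e).inv_left.mul_left (hx0 e)).mul_left (hx2 e))
    have h1 := hq.cc_conj (hx0 e) (x 2)⁻¹
    have h2 : (x 2)⁻¹ * T.t e 1 0 * (x 2)⁻¹⁻¹ = T.t e 1 0 := by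
      rw [(hx2 e).inv_left.eq]; group
    rw [h2, T.c_x0 hq hx (by norm_num) e h10, inv_inv] at h1
    rw [hq.cc_sq_right hc, h1, one_pow]
  -- actions of the squares
  have s1 : MulAut.conj ((T.l 1 0) ^ 2) (x 1) = (x 0 ^ 2)⁻¹ * x 1 := by
    rw [pow_two, map_mul, MulAut.mul_apply, T.lmul h10, map_mul, map_inv, T.lmul h10,
      T.lfix h10 h01]
    group
  have s2 : MulAut.conj ((T.r 1 0) ^ 2) (x 1) = x 1 * x 0 ^ 2 := by
    rw [pow_two, map_mul, MulAut.mul_apply, T.rmul h10, map_mul, T.rmul h10,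
      T.rfix h10 h01, mul_assoc, ← pow_two]
  have s3 : MulAut.conj ((T.r 1 0) ^ 2) (x 2) = x 2 := by
    rw [pow_two, map_mul, MulAut.mul_apply, T.rfix h10 h21, T.rfix h10 h21]
  have hcard : Fintype.card (Fin 4) = 4 := Fintype.card_fin 4
  rw [← hcard]
  refine hasChain_of hq
    ![x 1, T.r 1 2, x 2 * x 0 * (x 2)⁻¹, (x 2)⁻¹ * x 0 * x 2]
    ![(T.l 1 0) ^ 2, (T.r 1 0) ^ 2, T.l 2 0, T.r 2 0] ?_ ?_ ?_
  · intro i j h
    fin_cases i <;> fin_cases j <;> first | exact absurd h (by decide) | skip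
    · exact k2
    · exact k1 false false
    · exact k1 true false
    · exact k1 false true
    · exact k1 true true
    · exact T.c_rl hq hx (by norm_num) h20
  · intro i j h
    fin_cases i <;> fin_cases j <;> first | exact absurd h (by decide) | skip
    · exact k3
    · exact k4 false
    · exact k4 true
    · exact k5 false
    · exact k5 true
    · exact T.c_conj_l hq hx (by norm_num) h20
  · intro i
    fin_cases i
    · intro h
      change Commute (x 1) ((T.l 1 0) ^ 2) at h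
      have h1 := commute_iff_conj.mp h.symm
      rw [s1] at h1
      have h2 : (x 0 ^ 2)⁻¹ = 1 := by
        have h3 : (x 0 ^ 2)⁻¹ * x 1 = 1 * x 1 := by rw [h1, one_mul]
        exact mul_right_cancel h3
      rw [inv_eq_one] at h2
      apply sq_not_commute hx (by norm_num) h01
      rw [h2]
      exact Commute.one_left _
    · intro h
      change Commute (T.r 1 2) ((T.r 1 0) ^ 2) at h
      have h1 : MulAut.conj (T.r 1 2 * (T.r 1 0) ^ 2) (x 1) =
          MulAut.conj ((T.r 1 0) ^ 2 * T.r 1 2) (x 1) := by rw [h.eq]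
      rw [map_mul, map_mul, MulAut.mul_apply, MulAut.mul_apply, s2, T.rmul h12, map_mul,
        map_mul, T.rmul h12, map_pow, T.rfix h12 h01, s2, s3, mul_assoc, mul_assoc] at h1
      have h2 := mul_left_cancel h1
      exact sq_not_commute hx (by norm_num) h02 h2.symm
    · intro h
      exact T.not_commute_l_conj hx (by norm_num) h20 h.symm
    · intro h
      exact T.not_commute_r_conj hx (by norm_num) h20 h.symm

end rank3

end Pool.Agent.H5.LD
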