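import Pool.Agent.H5.LD.Rank3
import Pool.Agent.H5.LD.Lin

set_option autoImplicit false

namespace Pool.Agent.H5.LD

open Subgroup Pool.Agent.H5CS

section top

variable {F : Type*} [Field F] {d : ℕ} {G : Type*} [Group G]

/-- the pullback of `GL → PGL` along `ρ` -/
def Fib (ρ : G →* Matrix.ProjGenLinGroup (Fin d) F) :
    Subgroup (G × Matrix.GeneralLinearGroup (Fin d) F) :=
  MonoidHom.eqLocus (ρ.comp (MonoidHom.fst _ _))
    (Matrix.ProjGenLinGroup.mk.comp (MonoidHom.snd _ _))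

def fibq (ρ : G →* Matrix.ProjGenLinGroup (Fin d) F) : Fib ρ →* G :=
  (MonoidHom.fst _ _).comp (Fib ρ).subtype

lemma mem_fib {ρ : G →* Matrix.ProjGenLinGroup (Fin d) F}
    {p : G × Matrix.GeneralLinearGroup (Fin d) F} :
    p ∈ Fib ρ ↔ ρ p.1 = Matrix.ProjGenLinGroup.mk p.2 := Iff.rfl

lemma fib_cext (ρ : G →* Matrix.ProjGenLinGroup (Fin d) F) : CExt (fibq ρ) := by
  constructor
  · intro g
    obtain ⟨a, ha⟩ := Matrix.ProjGenLinGroup.mk_surjective (ρ g)
    exact ⟨⟨(g, a), mem_fib.mpr ha.symm⟩, rfl⟩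
  · rintro ⟨⟨g, a⟩, hp⟩ hz
    have hg : g = 1 := hz
    subst hg
    have h1 := mem_fib.mp hp
    rw [map_one] at h1
    have h2 : a ∈ center (Matrix.GeneralLinearGroup (Fin d) F) :=
      Matrix.ProjGenLinGroup.mk_eq_one.mp h1.symm
    rw [mem_center_iff] at h2
    rw [mem_center_iff]
    rintro ⟨⟨k, b⟩, hk⟩
    apply Subtype.ext
    refine Prod.ext ?_ (h2 b)
    change k * 1 = 1 * k
    rw [mul_one, one_mul]

theorem le_of_hasChain [IsSimpleGroup G] {N : ℕ} (ρ : G →* Matrix.ProjGenLinGroup (Fin d) F)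
    (hρ : ρ ≠ 1) (h : HasChain (fibq ρ) N) : N + 1 ≤ d := by
  obtain ⟨ι, i1, i2, i3, a, b, rfl, hb, hab, hne⟩ := h
  have hinj : Function.Injective ρ := by
    rcases (inferInstance : ρ.ker.Normal).eq_bot_or_eq_top with h0 | h0
    · exact (MonoidHom.ker_eq_bot_iff ρ).mp h0
    · exfalso
      apply hρ
      ext1 g
      have : g ∈ ρ.ker := by rw [h0]; trivial
      exact this
  have hpr : ∀ p p' : Fib ρ, p * p' = p' * p →
      (p.1.2 : Matrix (Fin d) (Fin d) F) * (p'.1.2 : Matrix (Fin d) (Fin d) F) =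
        (p'.1.2 : Matrix (Fin d) (Fin d) F) * (p.1.2 : Matrix (Fin d) (Fin d) F) := by
    intro p p' hp
    have h1 : p.1.2 * p'.1.2 = p'.1.2 * p.1.2 := congrArg (fun s : Fib ρ => s.1.2) hp
    exact congrArg (Units.val) h1
  refine chain (fun i => ((a i).1.2 : Matrix (Fin d) (Fin d) F))
    (fun i => ((b i).1.2 : Matrix (Fin d) (Fin d) F)) (fun i j => hpr _ _ (hb i j))
    (fun i j hij => hpr _ _ (hab i j hij)) ?_
  intro i hi
  apply hne i
  have h1 : (a i).1.2 * (b i).1.2 = (b i).1.2 * (a i).1.2 := Units.ext hi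
  have h2 : ρ (a i).1.1 * ρ (b i).1.1 = ρ (b i).1.1 * ρ (a i).1.1 := by
    rw [mem_fib.mp (a i).2, mem_fib.mp (b i).2, ← map_mul, ← map_mul, h1]
  rw [← map_mul, ← map_mul] at h2
  exact hinj h2

end top

/-- the bound for a homogeneous tuple -/
theorem bound {F : Type*} [Field F] {d n : ℕ} {G : Type*} [Group G] [Finite G]
    [IsSimpleGroup G] {x : Fin n → G} (hx : Homog x) (hn : 3 ≤ n) {m : ℕ}
    (hm : derivedSeries (MulAut G) m ≤ (MulAut.conj (G := G)).range)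
    (ρ : G →* Matrix.ProjGenLinGroup (Fin d) F) (hρ : ρ ≠ 1) : 2 * n - 1 ≤ d := by
  obtain ⟨T⟩ := exists_trv hx hn hm
  rcases Nat.lt_or_ge 3 n with h | h
  · obtain ⟨k, rfl⟩ : ∃ k, n = k + 1 := ⟨n - 1, by omega⟩
    have h1 := le_of_hasChain ρ hρ (chain_four (fib_cext ρ) hx T (by omega))
    omega
  · obtain rfl : n = 3 := by omega
    have h1 := le_of_hasChain ρ hρ (chain_three (fib_cext ρ) hx T)
    omega

end Pool.Agent.H5.LD
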