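import Pool.Agent.H5.LD.Levi
import Pool.Agent.H5.LD.Ext

set_option autoImplicit false

namespace Pool.Agent.H5.LD

open Subgroup Pool.Agent.H5CS

section trv

variable {n : ℕ} {G : Type*} [Group G]

/-- elements of `G` inducing the transvections: `r j k : x j ↦ x j * x k` and
`l j k : x j ↦ (x k)⁻¹ * x j`, the other letters fixed -/
structure Trv (x : Fin n → G) where
  r : Fin n → Fin n → G
  l : Fin n → Fin n → G
  rfix : ∀ {j k m}, j ≠ k → m ≠ j → MulAut.conj (r j k) (x m) = x m
  rmul : ∀ {j k}, j ≠ k → MulAut.conj (r j k) (x j) = x j * x k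
  lfix : ∀ {j k m}, j ≠ k → m ≠ j → MulAut.conj (l j k) (x m) = x m
  lmul : ∀ {j k}, j ≠ k → MulAut.conj (l j k) (x j) = (x k)⁻¹ * x j

variable {x : Fin n → G}

lemma exists_trv (hx : Homog x) (hn : 3 ≤ n) {m : ℕ}
    (hm : derivedSeries (MulAut G) m ≤ (MulAut.conj (G := G)).range) : Nonempty (Trv x) := by
  have hin : ∀ φ : MulAut G, IsTr x φ → ∃ g : G, MulAut.conj g = φ :=
    fun φ hφ => hx.le_inner hn hm (Subgroup.subset_closure hφ)
  have hr : ∀ j k : Fin n, ∃ g : G, j ≠ k → (∀ m, m ≠ j → MulAut.conj g (x m) = x m) ∧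
      MulAut.conj g (x j) = x j * x k := by
    intro j k
    by_cases hjk : j = k
    · exact ⟨1, fun h => absurd hjk h⟩
    · obtain ⟨φ, h0, h1, h2⟩ := hx.exTr j (one_mem _) (mem_ne (x := x) (Ne.symm hjk))
      obtain ⟨g, rfl⟩ := hin φ h0
      refine ⟨g, fun _ => ⟨h1, ?_⟩⟩
      rw [h2]; group
  have hl : ∀ j k : Fin n, ∃ g : G, j ≠ k → (∀ m, m ≠ j → MulAut.conj g (x m) = x m) ∧
      MulAut.conj g (x j) = (x k)⁻¹ * x j := by
    intro j k
    by_cases hjk : j = k
    · exact ⟨1, fun h => absurd hjk h⟩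
    · obtain ⟨φ, h0, h1, h2⟩ := hx.exTr j (mem_ne (x := x) (Ne.symm hjk)) (one_mem _)
      obtain ⟨g, rfl⟩ := hin φ h0
      refine ⟨g, fun _ => ⟨h1, ?_⟩⟩
      rw [h2, mul_one]
  choose r hr using hr
  choose l hl using hl
  exact ⟨{ r := r, l := l
           rfix := fun {j k m} h h' => (hr j k h).1 m h'
           rmul := fun {j k} h => (hr j k h).2
           lfix := fun {j k m} h h' => (hl j k h).1 m h'
           lmul := fun {j k} h => (hl j k h).2 }⟩

/-- two elements with the same action on the letters are equal -/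
lemma ext_conj [IsSimpleGroup G] (hx : Homog x) (hn : 2 ≤ n) {g h : G}
    (he : ∀ m, MulAut.conj g (x m) = MulAut.conj h (x m)) : g = h :=
  conj_injective (hx.not_comm hn) (hx.ext he)

lemma commute_iff_conj {g h : G} : Commute g h ↔ MulAut.conj g h = h := by
  rw [MulAut.conj_apply, mul_inv_eq_iff_eq_mul]
  exact Iff.rfl

lemma commute_of [IsSimpleGroup G] (hx : Homog x) (hn : 2 ≤ n) {g h : G}
    (he : ∀ m, MulAut.conj g (MulAut.conj h (x m)) = MulAut.conj h (MulAut.conj g (x m))) :
    Commute g h := by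
  apply ext_conj hx hn
  intro m
  rw [map_mul, map_mul, MulAut.mul_apply, MulAut.mul_apply]
  exact he m

lemma conj_inv_eq {g a b : G} (h : MulAut.conj g a = b) : MulAut.conj g⁻¹ b = a := by
  rw [← h, map_inv, MulAut.inv_apply_self]

namespace Trv

variable (T : Trv x)

/-- both kinds of transvection -/
def t (e : Bool) (j k : Fin n) : G := if e then T.r j k else T.l j k

lemma tfix (e : Bool) {j k m : Fin n} (hjk : j ≠ k) (hm : m ≠ j) :
    MulAut.conj (T.t e j k) (x m) = x m := by
  unfold t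
  split
  · exact T.rfix hjk hm
  · exact T.lfix hjk hm

lemma commute_x (e : Bool) {j k m : Fin n} (hjk : j ≠ k) (hm : m ≠ j) :
    Commute (T.t e j k) (x m) := commute_iff_conj.mpr (T.tfix e hjk hm)

/-- transvections of different letters commute -/
lemma commute_t [IsSimpleGroup G] (hx : Homog x) (hn : 2 ≤ n) (e e' : Bool) {j k a b : Fin n}
    (hja : j ≠ a) (hkb : k ≠ b) (hjk : j ≠ k) (hak : a ≠ k) (hbj : b ≠ j) :
    Commute (T.t e j a) (T.t e' k b) := by
  apply commute_of hx hn
  intro m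
  by_cases hmj : m = j
  · subst hmj
    rw [T.tfix e' hkb hjk]
    cases e with
    | true =>
      change MulAut.conj (T.r m a) (x m) = MulAut.conj (T.t e' k b) (MulAut.conj (T.r m a) (x m))
      rw [T.rmul hja, map_mul, T.tfix e' hkb hjk, T.tfix e' hkb hak]
    | false =>
      change MulAut.conj (T.l m a) (x m) = MulAut.conj (T.t e' k b) (MulAut.conj (T.l m a) (x m))
      rw [T.lmul hja, map_mul, map_inv, T.tfix e' hkb hjk, T.tfix e' hkb hak]
  · rw [T.tfix e hja hmj]
    by_cases hmk : m = k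
    · subst hmk
      cases e' with
      | true =>
        change MulAut.conj (T.t e j a) (MulAut.conj (T.r m b) (x m)) =
          MulAut.conj (T.r m b) (x m)
        rw [T.rmul hkb, map_mul, T.tfix e hja hmj, T.tfix e hja hbj]
      | false =>
        change MulAut.conj (T.t e j a) (MulAut.conj (T.l m b) (x m)) =
          MulAut.conj (T.l m b) (x m)
        rw [T.lmul hkb, map_mul, map_inv, T.tfix e hja hmj, T.tfix e hja hbj]
    · rw [T.tfix e' hkb hmk, T.tfix e hja hmj]

/-- right and left transvections of the same letter commute -/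
lemma commute_rl [IsSimpleGroup G] (hx : Homog x) (hn : 2 ≤ n) {j a b : Fin n}
    (hja : j ≠ a) (hjb : j ≠ b) : Commute (T.r j a) (T.l j b) := by
  apply commute_of hx hn
  intro m
  by_cases hmj : m = j
  · subst hmj
    rw [T.lmul hjb, T.rmul hja, map_mul, map_mul, map_inv, T.rfix hja hjb.symm, T.rmul hja,
      T.lmul hjb, T.lfix hjb hja.symm, mul_assoc]
  · rw [T.lfix hjb hmj, T.rfix hja hmj, T.lfix hjb hmj]

/-- a transvection is a commutator of transvections -/
lemma t_comm [IsSimpleGroup G] (hx : Homog x) (hn : 2 ≤ n) (e : Bool) {k i a : Fin n}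
    (hki : k ≠ i) (hka : k ≠ a) (hia : i ≠ a) :
    T.t e k a = ((T.t e k i)⁻¹ * (T.r i a)⁻¹ * T.t e k i * T.r i a)⁻¹ := by
  have hs : T.t e k i * T.r i a * T.t e k a = T.r i a * T.t e k i := by
    apply ext_conj hx hn
    intro m
    rw [map_mul, map_mul, map_mul, MulAut.mul_apply, MulAut.mul_apply, MulAut.mul_apply]
    by_cases hmk : m = k
    · subst hmk
      cases e with
      | true =>
        change MulAut.conj (T.r m i) (MulAut.conj (T.r i a) (MulAut.conj (T.r m a) (x m))) =
          MulAut.conj (T.r i a) (MulAut.conj (T.r m i) (x m))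
        rw [T.rmul hka, T.rmul hki, map_mul, map_mul, map_mul, T.rfix hia hki,
          T.rfix hia hia.symm, T.rmul hki, T.rfix hki hka.symm, T.rmul hia, mul_assoc]
      | false =>
        change MulAut.conj (T.l m i) (MulAut.conj (T.r i a) (MulAut.conj (T.l m a) (x m))) =
          MulAut.conj (T.r i a) (MulAut.conj (T.l m i) (x m))
        rw [T.lmul hka, T.lmul hki, map_mul, map_mul, map_mul, map_inv, map_inv, map_inv,
          T.rfix hia hki, T.rfix hia hia.symm, T.lmul hki, T.lfix hki hka.symm, T.rmul hia]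
        group
    · rw [T.tfix e hka hmk, T.tfix e hki hmk]
      by_cases hmi : m = i
      · subst hmi
        rw [T.rmul hia, map_mul, T.tfix e hki hki.symm, T.tfix e hki hka.symm]
      · rw [T.rfix hia hmi, T.tfix e hki hmk]
  have h2 : T.t e k a = (T.r i a)⁻¹ * (T.t e k i)⁻¹ * (T.t e k i * T.r i a * T.t e k a) := by
    group
  rw [hs] at h2
  rw [h2]; group

/-- the conjugate `(x j)⁻¹ * x k * x j` -/
lemma commute_l_conj {j k : Fin n} (hjk : j ≠ k) :
    Commute (T.l j k) ((x j)⁻¹ * x k * x j) := by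
  rw [commute_iff_conj, map_mul, map_mul, map_inv, T.lmul hjk, T.lfix hjk hjk.symm]
  group

lemma commute_r_conj {j k : Fin n} (hjk : j ≠ k) :
    Commute (T.r j k) (x j * x k * (x j)⁻¹) := by
  rw [commute_iff_conj, map_mul, map_mul, map_inv, T.rmul hjk, T.rfix hjk hjk.symm]
  group

lemma not_commute_r_conj [Finite G] [IsSimpleGroup G] (hx : Homog x) (hn : 3 ≤ n)
    {j k : Fin n} (hjk : j ≠ k) : ¬ Commute (T.r j k) ((x j)⁻¹ * x k * x j) := by
  intro h
  rw [commute_iff_conj, map_mul, map_mul, map_inv, T.rmul hjk, T.rfix hjk hjk.symm] at h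
  apply levi hx hn hjk.symm
  rw [commute_iff_conj, MulAut.conj_apply]
  have h1 : (x k)⁻¹ * ((x j)⁻¹ * x k * x j) * x k = (x j)⁻¹ * x k * x j := by
    calc (x k)⁻¹ * ((x j)⁻¹ * x k * x j) * x k = (x j * x k)⁻¹ * x k * (x j * x k) := by group
      _ = (x j)⁻¹ * x k * x j := h
  calc x k * ((x j)⁻¹ * x k * x j) * (x k)⁻¹
      = x k * ((x k)⁻¹ * ((x j)⁻¹ * x k * x j) * x k) * (x k)⁻¹ := by rw [h1]
    _ = (x j)⁻¹ * x k * x j := by group

lemma not_commute_l_conj [Finite G] [IsSimpleGroup G] (hx : Homog x) (hn : 3 ≤ n)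
    {j k : Fin n} (hjk : j ≠ k) : ¬ Commute (T.l j k) (x j * x k * (x j)⁻¹) := by
  intro h
  have h0 : MulAut.conj (T.l j k) (x j * x k * (x j)⁻¹) =
      (x k)⁻¹ * (x j * x k * (x j)⁻¹) * x k := by
    rw [map_mul, map_mul, map_inv, T.lmul hjk, T.lfix hjk hjk.symm]
    group
  rw [commute_iff_conj, h0] at h
  apply levi hx hn hjk.symm
  change x k * ((x j)⁻¹ * x k * x j) = (x j)⁻¹ * x k * x j * x k
  have h1 : x j * x k * (x j)⁻¹ * x k = x k * (x j * x k * (x j)⁻¹) := by
    calc x j * x k * (x j)⁻¹ * x k = x k * ((x k)⁻¹ * (x j * x k * (x j)⁻¹) * x k) := by group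
      _ = x k * (x j * x k * (x j)⁻¹) := by rw [h]
  calc x k * ((x j)⁻¹ * x k * x j)
      = (x j)⁻¹ * (x j * x k * (x j)⁻¹ * x k) * x j := by group
    _ = (x j)⁻¹ * (x k * (x j * x k * (x j)⁻¹)) * x j := by rw [h1]
    _ = (x j)⁻¹ * x k * x j * x k := by group

lemma not_commute_l [IsSimpleGroup G] (hx : Homog x) {j k : Fin n} (hjk : j ≠ k) :
    ¬ Commute (T.l j k) (x j) := by
  intro h
  rw [commute_iff_conj, T.lmul hjk] at h
  apply hx.ne_one k
  have h1 : (x k)⁻¹ = 1 := by
    have h2 : (x k)⁻¹ * x j = 1 * x j := by rw [h, one_mul]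
    exact mul_right_cancel h2
  rwa [inv_eq_one] at h1

end Trv

/-- a transvection is a commutator of two transvections, so it has exact commutators with
everything that commutes with both -/
lemma Trv.cc_one {E : Type*} [Group E] {q : E →* G} (hq : CExt q) [IsSimpleGroup G] (T : Trv x)
    (hx : Homog x) (hn : 2 ≤ n) (e : Bool) {k i a : Fin n}
    (hki : k ≠ i) (hka : k ≠ a) (hia : i ≠ a) {g : G} (h1 : Commute g (T.t e k i))
    (h2 : Commute g (T.r i a)) : cc q g (T.t e k a) = 1 := by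
  rw [T.t_comm hx hn e hki hka hia]
  exact hq.cc_comm h1 h2

end trv

end Pool.Agent.H5.LD
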